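import Pool.Agent.Helper32K9.Reg.Quad2

set_option autoImplicit false

/-!
# Patterns of regular elements in the sets of arguments of prime values of quadratic polynomials

Let `(a, b, c)` be an admissible triple of Conjecture F. `R a b c r` is the set of the `t` for which all prime
factors of `a t ^ 2 + b t + c` are larger than `t ^ (1 / r)`; it contains all large elements of the set `P` of the
`t` for which the value is prime. Let `A` be an ARBITRARY subset of `R a b c r`, for example `P ∩ [t₀, ∞)`. In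
every interval `(X, X + Y]`, `X ^ θ ≤ Y ≤ X / 2`, all but at most `ε Y / log X` of the elements of `A` are typical:
they are regular points of `A` (the elements of `A` in ALL intervals of length between `log X / c` and `Y` around
them have the right order, and constant density up to `δ` at all but `B` dyadic scales), and they are the
centres of at least `κ D ^ m / (log X) ^ ((2 K + 1) ^ m - 1)` patterns `t + f · d` (`|f i| ≤ K`) with difference
vectors `d` in `{1, ..., D} ^ m` ALL OF WHOSE ELEMENTS are regular points of `A` in `(X, X + Y]`.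
-/

namespace Pool.Agent.Results.MP_a17b09_nt.RegularPatterns

open Filter
open Pool.Agent.Helper32K9.Typ (Typical)
open Pool.Agent.Helper32K9.QuadF (Admissible R Al)

/-- **Patterns of regular elements.** -/
theorem result (a b c : ℤ) (habc : Admissible a b c) (θ : ℝ) (hθ : 0 < θ) (hθ1 : θ ≤ 1) :
    ∃ t₀ r₀ : ℕ, 2 ≤ r₀ ∧ ∀ r : ℕ, r₀ ≤ r →
      {t : ℕ | t₀ ≤ t ∧ Prime (a * (t : ℤ) ^ 2 + b * t + c)} ⊆ R a b c r ∧ Al a b c r ⊆ R a b c r ∧
      (∃ κ : ℝ, 0 < κ ∧ ∀ᶠ X : ℕ in atTop, ∀ Y : ℕ, (X : ℝ) ^ θ ≤ Y → Y ≤ X →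
        κ * Y / Real.log X ≤ ((Al a b c r ∩ Set.Ioc X (X + Y)).ncard : ℝ)) ∧
      ∀ m K : ℕ, 1 ≤ K → ∀ ε : ℝ, 0 < ε → ∃ κ : ℝ, 0 < κ ∧ ∀ δ : ℝ, 0 < δ → ∃ B : ℕ,
        ∀ᶠ X : ℕ in atTop, ∀ Y D : ℕ, (X : ℝ) ^ θ ≤ Y → 2 * Y ≤ X → Real.log X ^ B ≤ D → D ≤ Y →
          ∀ A : Set ℕ, A ⊆ R a b c r →
          (((A ∩ Set.Ioc X (X + Y)) \ Typical A 1 κ δ B K m X Y D).ncard : ℝ) ≤ ε * Y / Real.log X := by
  obtain ⟨t₀, ht₀⟩ := Pool.Agent.Helper32K9.QuadF.prime_mem a b c habc.1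
  obtain ⟨r₀, hr₀, h⟩ := Pool.Agent.Helper32K9.QuadF.main a b c habc θ hθ hθ1
  refine ⟨t₀, r₀, hr₀, fun r hr => ?_⟩
  obtain ⟨h1, h2, -⟩ := h r hr
  refine ⟨ht₀ r (hr₀.trans hr), fun t ht => ht.1, h1, fun m K hK ε hε => ?_⟩
  obtain ⟨c', hc, h4⟩ := h2 m K hK ε hε
  refine ⟨c', hc, fun δ hδ => ?_⟩
  obtain ⟨B, h5⟩ := h4 δ hδ
  refine ⟨B, ?_⟩
  filter_upwards [h5] with X hX Y D k1 k2 k3 k4 A hA
  have := hX Y D k1 k2 k3 k4 A (fun n hn q hq hd => (hA hn).2 q hq hd)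
  rwa [pow_one] at this

end Pool.Agent.Results.MP_a17b09_nt.RegularPatterns
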